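import Pool.Agent.H680R3.ZP.Stmts
import Pool.Agent.H639R3.Z.Ext

/-! ZP-PROJECT, task A5 (assembly of block A). -/

set_option autoImplicit false

namespace Pool.Agent.H237R3.ZP

open FF Pool.Agent.H639R3 H680ZP
open scoped IntermediateField

section witt

variable {p : ℕ} [hp : Fact p.Prime] {R : Type*} [CommRing R]

/-- the same components below `n` -/
def Same (n : ℕ) (a b : WittVector p R) : Prop := ∀ i, i < n → a.coeff i = b.coeff i

theorem same_iff (n : ℕ) (a b : WittVector p R) :
    Same n a b ↔ WittVector.truncate n a = WittVector.truncate n b := by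
  constructor
  · intro h
    apply TruncatedWittVector.ext
    intro i
    rw [WittVector.coeff_truncate, WittVector.coeff_truncate]
    exact h i i.2
  · intro h i hi
    have := congrArg (fun t => TruncatedWittVector.coeff ⟨i, hi⟩ t) h
    simpa [WittVector.coeff_truncate] using this

theorem Same.sub {n : ℕ} {a a' b b' : WittVector p R} (h : Same n a a') (h' : Same n b b') :
    Same n (a - b) (a' - b') := by
  rw [same_iff] at *
  rw [map_sub, map_sub, h, h']

theorem Same.trans {n : ℕ} {a b c : WittVector p R} (h : Same n a b) (h' : Same n b c) :
    Same n a c := fun i hi => (h i hi).trans (h' i hi)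

theorem vz_iff (n : ℕ) (w : WittVector p R) : VZ n w ↔ WittVector.truncate n w = 0 := by
  rw [← RingHom.mem_ker, WittVector.mem_ker_truncate]
  rfl

theorem Same.frob [CharP R p] {n : ℕ} {a b : WittVector p R} (h : Same n a b) :
    Same n (WittVector.frobenius a) (WittVector.frobenius b) := by
  intro i hi
  rw [WittVector.coeff_frobenius_charP, WittVector.coeff_frobenius_charP, h i hi]

theorem map_frob {S : Type*} [CommRing S] [CharP R p] [CharP S p] (f : R →+* S)
    (a : WittVector p R) : WittVector.map f (WittVector.frobenius a) =
      WittVector.frobenius (WittVector.map f a) := by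
  ext i
  rw [WittVector.map_coeff, WittVector.coeff_frobenius_charP, WittVector.coeff_frobenius_charP,
    WittVector.map_coeff, map_pow]

theorem coeff_mem_sub (w : Subring R) (n : ℕ) (a b : WittVector p R)
    (ha : ∀ j, j < n → a.coeff j ∈ w) (hb : ∀ j, j < n → b.coeff j ∈ w) :
    ∀ j, j < n → (a - b).coeff j ∈ w := by
  classical
  let a' : WittVector p w := WittVector.mk p fun j => if h : j < n then ⟨a.coeff j, ha j h⟩ else 0
  let b' : WittVector p w := WittVector.mk p fun j => if h : j < n then ⟨b.coeff j, hb j h⟩ else 0
  have h1 : Same n a (WittVector.map w.subtype a') := by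
    intro j hj
    rw [WittVector.map_coeff]
    simp [a', WittVector.coeff_mk, hj]
  have h2 : Same n b (WittVector.map w.subtype b') := by
    intro j hj
    rw [WittVector.map_coeff]
    simp [b', WittVector.coeff_mk, hj]
  have h3 := h1.sub h2
  rw [← map_sub] at h3
  intro j hj
  rw [h3 j hj, WittVector.map_coeff]
  exact ((a' - b').coeff j).2

end witt

theorem taskASWAsm : TaskASWAsm := by
  intro hY hLocal hSA hFrob hBridge hRR
  intro p _ k K L _ _ _ _ _ _ _ _ _ T n
  classical
  obtain ⟨hFF, e, he⟩ := hBridge k K T.curve
  haveI := hFF
  haveI hcharK : CharP K p := charP_of_injective_algebraMap (algebraMap k K).injective p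
  haveI hcharL : CharP L p := charP_of_injective_algebraMap (algebraMap k L).injective p
  obtain ⟨y, hy⟩ := hY p k K L T n
  obtain ⟨hR1, -⟩ := hRR k K
  haveI := T.galois
  have hord : ∀ f : K, {P : Place k K | ¬ P.Reg f}.Finite := by
    intro f
    refine (hR1 f).subset ?_
    intro P hP h0
    exact hP (Or.inr h0.ge)
  -- the components of `F y - y` lie in `K`
  have hK : ∀ j, j < n → ∃ c : K, algebraMap K L c = (WittVector.frobenius y - y).coeff j := by
    intro j hj
    have hmem : (WittVector.frobenius y - y).coeff j ∈ Set.range (algebraMap K L) := by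
      rw [InfiniteGalois.mem_range_algebraMap_iff_fixed]
      intro σ
      have h1 : Same n (WittVector.map (σ : L →+* L) y) (y + (ex T n σ : WittVector p L)) := by
        have h2 := hy σ
        rw [vz_iff, map_sub, map_sub] at h2
        rw [same_iff, map_add]
        rw [← sub_eq_zero]
        rw [← h2]
        ring
      have h3 : Same n (WittVector.map (σ : L →+* L) (WittVector.frobenius y - y))
          (WittVector.frobenius y - y) := by
        rw [map_sub, map_frob]
        have h4 := (h1.frob).sub h1
        rw [map_add, map_natCast] at h4
        rwa [add_sub_add_right_eq_sub] at h4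
      have h5 := h3 j hj
      rw [WittVector.map_coeff] at h5
      exact h5
    exact hmem
  let f : WittVector p K := WittVector.mk p fun j =>
    if h : j < n then Classical.choose (hK j h) else 0
  have hf : Same n (WittVector.frobenius y - y) (WittVector.map (algebraMap K L) f) := by
    intro j hj
    rw [WittVector.map_coeff, ← Classical.choose_spec (hK j hj)]
    simp [f, WittVector.coeff_mk, hj]
  -- the bad set
  set B : Set (Place k K) := {x | ∃ j, j < n ∧ ¬ x.Reg (f.coeff j)} with hB
  have hBfin : B.Finite := by
    have : B = ⋃ j ∈ Finset.range n, {x : Place k K | ¬ x.Reg (f.coeff j)} := by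
      ext x
      simp [hB]
    rw [this]
    exact Set.Finite.biUnion (Finset.finite_toSet _) (fun j _ => hord _)
  let gx : Place k K → WittVector p K := fun x =>
    if hx : e x ∉ T.S ∧ x ∈ B then Classical.choose (hLocal p k K L T n y hy (e x) hx.1) else 0
  have hgxfin : {x : Place k K | ∃ j, j < n ∧ ¬ x.Reg ((gx x).coeff j)}.Finite := by
    refine hBfin.subset ?_
    rintro x ⟨j, hj, hx⟩
    by_contra hxB
    apply hx
    have : gx x = 0 := dif_neg (fun h => hxB h.2)
    rw [this, WittVector.zero_coeff]
    exact x.reg_zero
  have hSfin : (e ⁻¹' T.S).Finite := T.finite.preimage e.injective.injOn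
  have hSne : hSfin.toFinset.Nonempty := by
    obtain ⟨s, hs⟩ := T.nonempty
    exact ⟨e.symm s, by simpa using hs⟩
  obtain ⟨g, hg⟩ := hSA p k K hSfin.toFinset hSne n gx hgxfin
  let b : WittVector p K := f - (WittVector.frobenius g - g)
  let y' : WittVector p L := y - WittVector.map (algebraMap K L) g
  have hy' : IsASW T n y' := by
    intro σ
    have h1 : WittVector.map (σ : L →+* L) (WittVector.map (algebraMap K L) g) =
        WittVector.map (algebraMap K L) g := by
      ext i
      rw [WittVector.map_coeff, WittVector.map_coeff]
      exact σ.commutes _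
    have h2 : WittVector.map (σ : L →+* L) y' - y' - (ex T n σ : WittVector p L) =
        WittVector.map (σ : L →+* L) y - y - (ex T n σ : WittVector p L) := by
      show WittVector.map (σ : L →+* L) (y - WittVector.map (algebraMap K L) g) -
        (y - WittVector.map (algebraMap K L) g) - (ex T n σ : WittVector p L) = _
      rw [map_sub, h1]
      ring
    rw [h2]
    exact hy σ
  have hb' : ∀ j, j < n →
      (WittVector.frobenius y' - y').coeff j = algebraMap K L (b.coeff j) := by
    have h1 : WittVector.frobenius y' - y' = (WittVector.frobenius y - y) -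
        WittVector.map (algebraMap K L) (WittVector.frobenius g - g) := by
      show WittVector.frobenius (y - WittVector.map (algebraMap K L) g) -
        (y - WittVector.map (algebraMap K L) g) = _
      rw [map_sub, map_sub, map_frob]
      ring
    have h2 : Same n (WittVector.frobenius y' - y') (WittVector.map (algebraMap K L) b) := by
      rw [h1]
      show Same n _ (WittVector.map (algebraMap K L) (f - (WittVector.frobenius g - g)))
      rw [map_sub (WittVector.map (algebraMap K L)) f]
      exact hf.sub (fun _ _ => rfl)
    intro j hj
    rw [h2 j hj, WittVector.map_coeff]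
  have hmem : ∀ x : ClosedPoint k K, x ∉ T.S → ∀ j, j < n → b.coeff j ∈ x.ring := by
    intro x hx
    obtain ⟨P, rfl⟩ := e.surjective x
    have hring := (he P).1
    have hPS : P ∉ hSfin.toFinset := by simpa using hx
    have hgP := hg P hPS
    by_cases hPB : P ∈ B
    · obtain ⟨w, hw⟩ := exists_extension (L := L) (e P).ring
      have hgx : gx P = Classical.choose (hLocal p k K L T n y hy (e P) hx) :=
        dif_pos ⟨hx, hPB⟩
      have hspec := Classical.choose_spec (hLocal p k K L T n y hy (e P) hx) w hw
      rw [← hgx] at hspec
      have hcomap : ∀ c : K, c ∈ (e P).ring ↔ algebraMap K L c ∈ w := by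
        intro c
        rw [← hw]
        exact ValuationSubring.mem_comap
      have h1 : ∀ j, j < n → (WittVector.map (algebraMap K L) (g - gx P)).coeff j ∈
          w.toSubring := by
        intro j hj
        rw [WittVector.map_coeff]
        refine (hcomap _).1 ?_
        rw [hring]
        exact hgP j hj
      have h2 : y' = (y - WittVector.map (algebraMap K L) (gx P)) -
          WittVector.map (algebraMap K L) (g - gx P) := by
        show y - WittVector.map (algebraMap K L) g = _
        rw [map_sub (WittVector.map (algebraMap K L)) g]
        ring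
      have h3 : ∀ j, j < n → y'.coeff j ∈ w.toSubring := by
        rw [h2]
        exact coeff_mem_sub w.toSubring n _ _ hspec h1
      have h4 : ∀ j, j < n → (WittVector.frobenius y').coeff j ∈ w.toSubring := by
        intro j hj
        rw [WittVector.coeff_frobenius_charP]
        exact Subring.pow_mem _ (h3 j hj) p
      have h5 := coeff_mem_sub w.toSubring n _ _ h4 h3
      intro j hj
      rw [hcomap, ← hb' j hj]
      exact h5 j hj
    · have hgx : gx P = 0 := dif_neg (fun h => hPB h.2)
      rw [hgx] at hgP
      simp only [sub_zero] at hgP
      have hfP : ∀ j, j < n → f.coeff j ∈ P.O.toSubring := by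
        intro j hj
        by_contra hne
        exact hPB ⟨j, hj, hne⟩
      have h4 : ∀ j, j < n → (WittVector.frobenius g).coeff j ∈ P.O.toSubring := by
        intro j hj
        rw [WittVector.coeff_frobenius_charP]
        exact Subring.pow_mem _ (hgP j hj) p
      have h5 := coeff_mem_sub P.O.toSubring n _ _ h4 hgP
      intro j hj
      rw [hring]
      exact coeff_mem_sub P.O.toSubring n _ _ hfP h5 j hj
  exact ⟨fun j => b.coeff j, hmem, fun x hx ι =>
    hFrob p k K L T n y' hy' (fun j => b.coeff j) hb' x hx (hmem x hx) ι⟩

end Pool.Agent.H237R3.ZP
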